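import Pool.Agent.Helper45.AM.GoalsA
import Pool.Agent.Helper45.AM.GoalsE
import Pool.Agent.Helper45.AM.Basic
import Pool.Agent.Helper15.RA.Basic

/-!
# Project AM (MP_cc6379_al): packet E4
-/

set_option autoImplicit false

open LaurentPolynomial Pool.Agent.Helper15.RA

noncomputable section

namespace Pool.Agent.Helper58.AM

open _root_.Pool.Agent.Helper45.AM

variable {S W H : Type} [Group W] [Ring H] [Algebra ℤ[T;T⁻¹] H] (X : AC S W H)

/-- The product of `T_x c_a` and `c_b T_y` in terms of the elements `B`. -/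
theorem prod_eq (x a a' y : W) :
    X.D.t x * X.D.c a * (X.D.c a' * X.D.t y) = (X.h a a').sum fun z p => p • X.B x z y := by
  have h1 : X.D.t x * X.D.c a * (X.D.c a' * X.D.t y) = X.D.t x * (X.D.c a * X.D.c a') * X.D.t y := by
    simp only [mul_assoc]
  rw [h1, X.isH a a', Finsupp.sum, Finsupp.sum, Finset.mul_sum, Finset.sum_mul]
  refine Finset.sum_congr rfl fun z _ => ?_
  unfold AC.B
  rw [mul_smul_comm, smul_mul_assoc]

theorem repr_prod (x a a' y u : W) :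
    X.b.repr (X.D.t x * X.D.c a * (X.D.c a' * X.D.t y)) u =
      (X.h a a').sum fun z p => p * X.b.repr (X.B x z y) u := by
  rw [prod_eq, Finsupp.sum, map_sum, Finsupp.finsetSum_apply]
  refine Finset.sum_congr rfl fun z _ => ?_
  rw [map_smul, Finsupp.smul_apply, smul_eq_mul]

/-- **E4**. -/
theorem h_e_4 (hAB : A_B) (hS : A_S) (hK : A_K) (hL : A_L) (hE : E_1) : E_4 := by
  intro S W H _ _ _ X hSB hNN hCC M b x g₁ g₂ y u hx hg₁ hg₂ hy hα hu
  have hsup : ∀ a ∈ par X.cs (X.F b), ∀ a' ∈ par X.cs (X.F b), ∀ z, X.h a a' z ≠ 0 →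
      z ∈ par X.cs (X.F b) := (hS S W H X.toBase (X.F b)).2.2.2.2.2.1
  have hB : ∀ x', XR X.cs (X.F b) x' → ∀ z ∈ par X.cs (X.F b), ∀ y', XL X.cs (X.F b) y' →
      DegLE ((M : ℤ) - X.α z) (X.b.repr (X.B x' z y') u) := by
    intro x' hx' z hz y' hy'
    have h1 := hSB (X.nn x' z y' + 1) M x' z y' (Or.inl ⟨b, hx', hz, hy'⟩) (Nat.lt_succ_self _)
    have h2 := (hE S W H X hNN hCC M (X.nn x' z y') (X.B x' z y') u hu).2 _ h1.lam
    refine h2.mono ?_
    have := X.eps_nonneg M x' z y'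
    omega
  have hZ : ∀ x', XR X.cs (X.F b) x' → ∀ a ∈ par X.cs (X.F b), ∀ a' ∈ par X.cs (X.F b),
      ∀ y', XL X.cs (X.F b) y' →
      DegLE M (X.b.repr (X.D.t x' * X.D.c a * (X.D.c a' * X.D.t y')) u) := by
    intro x' hx' a ha a' ha' y' hy'
    rw [repr_prod, Finsupp.sum]
    refine DegLE.sum fun z hz => ?_
    have hz' := hsup a ha a' ha' z (Finsupp.mem_support_iff.1 hz)
    exact DegLE.mul_le ((X.pg b).deg a ha a' ha' z hz') (hB x' hx' z hz' y' hy') (by omega)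
  obtain ⟨-, -, -, p, hp1, hp2, hp3⟩ := hK S W H X.toBase (X.F b) x g₁ hx hg₁
  obtain ⟨-, -, -, p', hp1', hp2', hp3'⟩ := hL S W H X.toBase (X.F b) g₂ y hy hg₂
  have hA : X.D.c (x * g₁) * X.D.c (g₂ * y) =
      X.D.t x * X.D.c g₁ * (X.D.c g₂ * X.D.t y) +
      (∑ r ∈ p'.support, p' r • (X.D.t x * X.D.c g₁ * (X.D.c r.1 * X.D.t r.2)) +
      (∑ r ∈ p.support, p r • (X.D.t r.1 * X.D.c r.2 * (X.D.c g₂ * X.D.t y)) +
      ∑ r ∈ p.support, ∑ r' ∈ p'.support, p r • (p' r' •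
        (X.D.t r.1 * X.D.c r.2 * (X.D.c r'.1 * X.D.t r'.2))))) := by
    rw [hp3, hp3', Finsupp.sum, Finsupp.sum, add_mul, mul_add, mul_add, Finset.sum_mul,
      Finset.mul_sum, Finset.sum_mul, add_assoc]
    congr 2
    · refine Finset.sum_congr rfl fun r _ => ?_
      rw [mul_smul_comm]
    · congr 1
      · refine Finset.sum_congr rfl fun r _ => ?_
        rw [smul_mul_assoc]
      · refine Finset.sum_congr rfl fun r _ => ?_
        rw [Finset.mul_sum]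
        refine Finset.sum_congr rfl fun r' _ => ?_
        rw [smul_mul_assoc, mul_smul_comm]
  have hX : X.b.repr (X.D.c (x * g₁) * X.D.c (g₂ * y)) = X.h (x * g₁) (g₂ * y) :=
    (hAB S W H X.toBase).1 _ _
  have key : X.h (x * g₁) (g₂ * y) u =
      X.b.repr (X.D.t x * X.D.c g₁ * (X.D.c g₂ * X.D.t y)) u +
      (∑ r ∈ p'.support, p' r * X.b.repr (X.D.t x * X.D.c g₁ * (X.D.c r.1 * X.D.t r.2)) u +
      (∑ r ∈ p.support, p r * X.b.repr (X.D.t r.1 * X.D.c r.2 * (X.D.c g₂ * X.D.t y)) u +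
      ∑ r ∈ p.support, ∑ r' ∈ p'.support, p r * (p' r' *
        X.b.repr (X.D.t r.1 * X.D.c r.2 * (X.D.c r'.1 * X.D.t r'.2)) u))) := by
    rw [← hX, hA]
    simp only [map_add, map_sum, map_smul, Finsupp.add_apply, Finsupp.finsetSum_apply,
      Finsupp.smul_apply, smul_eq_mul]
  have e1 : (X.h (x * g₁) (g₂ * y) u).coeff (M : ℤ) =
      (X.b.repr (X.D.t x * X.D.c g₁ * (X.D.c g₂ * X.D.t y)) u).coeff (M : ℤ) := by
    have hrest : DegLE ((M : ℤ) - 1)
        (∑ r ∈ p'.support, p' r * X.b.repr (X.D.t x * X.D.c g₁ * (X.D.c r.1 * X.D.t r.2)) u +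
        (∑ r ∈ p.support, p r * X.b.repr (X.D.t r.1 * X.D.c r.2 * (X.D.c g₂ * X.D.t y)) u +
        ∑ r ∈ p.support, ∑ r' ∈ p'.support, p r * (p' r' *
          X.b.repr (X.D.t r.1 * X.D.c r.2 * (X.D.c r'.1 * X.D.t r'.2)) u))) := by
      refine DegLE.add (DegLE.sum fun r hr => ?_) (DegLE.add (DegLE.sum fun r hr => ?_)
        (DegLE.sum fun r hr => DegLE.sum fun r' hr' => ?_))
      · obtain ⟨k1, k2, -, -⟩ := hp2' r hr
        exact DegLE.mul_le (hp1' r) (hZ x hx g₁ hg₁ _ k1 _ k2) (by omega)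
      · obtain ⟨k1, k2, -, -⟩ := hp2 r hr
        exact DegLE.mul_le (hp1 r) (hZ _ k1 _ k2 g₂ hg₂ y hy) (by omega)
      · obtain ⟨k1, k2, -, -⟩ := hp2 r hr
        obtain ⟨k1', k2', -, -⟩ := hp2' r' hr'
        exact DegLE.mul_le (hp1 r) (DegLE.mul_le (m := (M : ℤ) - 1) (hp1' r')
          (hZ _ k1 _ k2 _ k1' _ k2') (by omega)) (by omega)
    have h2 := hrest M (by omega)
    rw [key, AddMonoidAlgebra.coeff_add, Finsupp.add_apply, h2, add_zero]
  have hcs : ∀ (s : Finset W) (f : W → ℤ[T;T⁻¹]) (n : ℤ),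
      (∑ z ∈ s, f z).coeff n = ∑ z ∈ s, (f z).coeff n := by
    classical
    intro s f n
    induction s using Finset.induction_on with
    | empty => rfl
    | insert i s hi ih =>
      rw [Finset.sum_insert hi, Finset.sum_insert hi, AddMonoidAlgebra.coeff_add,
        Finsupp.add_apply, ih]
  rw [e1, repr_prod, Finsupp.sum, Finsupp.sum, hcs]
  refine Finset.sum_congr rfl fun z hz => ?_
  have hz' := hsup g₁ hg₁ g₂ hg₂ z (Finsupp.mem_support_iff.1 hz)
  have h1 := coeff_mul_top ((X.pg b).deg g₁ hg₁ g₂ hg₂ z hz') (hB x hx z hz' y hy)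
  rw [add_sub_cancel] at h1
  rw [h1]
  by_cases h0 : (X.h g₁ g₂ z).coeff (X.α z : ℤ) = 0
  · rw [h0, zero_mul, zero_mul]
  · have h2 := ((X.pg b).p8 g₁ hg₁ g₂ hg₂ z hz' h0).1
    rw [← h2, hα, sub_self]

end Pool.Agent.Helper58.AM
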